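import Mathlib
import Pool.Agent.Work.MP_6c5a21_nt.Main

namespace Pool.Agent.Results.MP_6c5a21_nt.Subspace

/-- For every `C > 0`, every `n ≥ 1` and every nonempty `A ⊆ 𝔽₂ ^ n` of density greater than
`1 / 2 - C / √n`, the sumset `A + A` contains a linear subspace of codimension at most
`21600 C ^ 2 + 2`. -/
theorem result :
    ∀ C : ℝ, 0 < C → ∀ n : ℕ, 1 ≤ n → ∀ A : Finset (Fin n → ZMod 2), A.Nonempty →
      1 / 2 - C / Real.sqrt n < (A.card : ℝ) / 2 ^ n →
      ∃ V : Submodule (ZMod 2) (Fin n → ZMod 2),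
        (n : ℝ) - (Module.finrank (ZMod 2) V : ℝ) ≤ 21600 * C ^ 2 + 2 ∧
        ∀ v ∈ V, ∃ a ∈ A, ∃ b ∈ A, a + b = v := by
  intro C hC n hn A hA hdens
  have hnR : (0 : ℝ) < n := by exact_mod_cast hn
  have hs : 0 < Real.sqrt n := Real.sqrt_pos.mpr hnR
  have hcard : (Fintype.card (Fin n → ZMod 2) : ℝ) = 2 ^ n := by simp
  have h := Pool.Agent.Work.MP_6c5a21_nt.main (G := Fin n → ZMod 2) n (by simp) hn
    (C / Real.sqrt n) (by positivity) A hA (by
      rw [hcard]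
      rwa [lt_div_iff₀ (by positivity)] at hdens)
  have e : (C / Real.sqrt n) ^ 2 * n = C ^ 2 := by
    rw [div_pow, Real.sq_sqrt hnR.le]
    field_simp
  rwa [e] at h

end Pool.Agent.Results.MP_6c5a21_nt.Subspace
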